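import Pool.Agent.Y6.M.Stm

/-!
# Job 5911 (EM-RIC): regular solutions of the chain do not exist for a long time
-/

open Set Filter Topology
open Pool.Agent.Y6.M

set_option autoImplicit false

namespace Pool.Agent.Y737.EM.Ric

variable {α : ℕ → ℝ} {G : ℕ → ℂ} {b d : ℕ → ℝ}

theorem a_lo (h : Chn α G b d) (n : ℕ) : 10 ^ 40 ≤ α n ∧ (16 : ℝ) ^ n ≤ α n := by
  induction n with
  | zero =>
    refine ⟨h.A0, ?_⟩
    have := h.A0
    rw [pow_zero]
    linarith
  | succ n ih =>
    obtain ⟨h1, h2⟩ := ih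
    have h3 : α n ^ 2 ≤ α (n + 1) := by
      rw [h.step]
      exact pow_le_pow_right₀ (by linarith) (by omega)
    have h4 : (10 : ℝ) ^ 40 * α n ≤ α n ^ 2 := by
      rw [pow_two]
      exact mul_le_mul_of_nonneg_right h1 (by linarith)
    constructor
    · nlinarith
    · rw [pow_succ]
      nlinarith

theorem sq_lo (h : Chn α G b d) (n : ℕ) : (4 : ℝ) ^ n ≤ √(α n) := by
  refine Real.le_sqrt_of_sq_le ?_
  have := (a_lo h n).2
  rwa [← pow_mul, mul_comm, pow_mul, show (4 : ℝ) ^ 2 = 16 by norm_num]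

theorem δ_le (h : Chn α G b d) (n : ℕ) : δc α n ≤ (1 / 2 : ℝ) ^ n := by
  unfold δc
  have h1 : (2 : ℝ) ^ n ≤ √(√(α n)) := by
    refine Real.le_sqrt_of_sq_le ?_
    have := sq_lo h n
    rwa [← pow_mul, mul_comm, pow_mul, show (2 : ℝ) ^ 2 = 4 by norm_num]
  rw [one_div, inv_pow]
  exact inv_anti₀ (by positivity) h1

theorem mono {N : ℕ} {s e e' : ℝ} {x y f g : ℕ → ℝ → ℂ} (h : CSol α G b d N s e x y f g)
    (he : e' ≤ e) : CSol α G b d N s e' x y f g := by
  have hs : Icc s e' ⊆ Icc s e := Icc_subset_Icc_right he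
  exact ⟨fun n hn t ht => (h.dx n hn t (hs ht)).mono hs, fun n hn t ht => (h.dy n hn t (hs ht)).mono hs,
    fun n t ht => h.pf n t (hs ht), fun n t ht => h.pg n t (hs ht), fun n t ht => h.one n t (hs ht)⟩

/-- The level `n` is exceeded. -/
def Ex (α : ℕ → ℝ) (x y : ℕ → ℝ → ℂ) (n : ℕ) (t : ℝ) : Prop :=
  Uth α n ≤ ‖x n t‖ ∨ (1 ≤ n ∧ Uth α n ≤ ‖y (n - 1) t‖)

theorem lt_of_not {x y : ℕ → ℝ → ℂ} {m : ℕ} {t : ℝ} (h : ∀ n, m < n → ¬ Ex α x y n t) :
    (∀ n, m < n → ‖x n t‖ < Uth α n) ∧ ∀ n, m ≤ n → ‖y n t‖ < Uth α (n + 1) := by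
  constructor
  · intro n hn
    by_contra hc
    exact h n hn (Or.inl (not_lt.1 hc))
  · intro n hn
    by_contra hc
    exact h (n + 1) (by omega) (Or.inr ⟨by omega, not_lt.1 hc⟩)

theorem t_RIC : S_STEP → S_RIC := by
  intro hS α G b d h θ x y f g h0 h60 hsol hx0 hy0 hM
  obtain ⟨M, hM⟩ := hM
  have hcx : ∀ n, ContinuousOn (x n) (Icc 0 θ) := fun n t ht =>
    ((hsol n).dx n le_rfl t ht).continuousWithinAt
  have hcy : ∀ n, ContinuousOn (y n) (Icc 0 θ) := fun n t ht =>
    ((hsol (n + 1)).dy n (Nat.lt_succ_self n) t ht).continuousWithinAt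
  -- high levels are never exceeded
  obtain ⟨n0, hn0⟩ : ∃ n0 : ℕ, ∀ n, n0 < n → ∀ t ∈ Icc 0 θ, ¬ Ex α x y n t := by
    refine ⟨⌈M⌉₊, fun n hn t ht hE => ?_⟩
    have h1 : M ≤ (n : ℝ) := (Nat.le_ceil M).trans (by exact_mod_cast hn.le)
    have h2 : (n : ℝ) < 4 ^ n := by
      have : n < 4 ^ n := Nat.lt_pow_self (by norm_num)
      exact_mod_cast this
    have h3 := sq_lo h n
    have hα : 0 < α n := by
      have := (a_lo h n).1
      linarith
    have h4 : ∀ w : ℝ, Uth α n ≤ w → α n * w ≤ M → False := by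
      intro w hw hw'
      have h5 : √(α n) ≤ α n * w := by
        have h6 : α n * (√(α n))⁻¹ = √(α n) := by
          rw [← div_eq_mul_inv]
          exact Real.div_sqrt
        rw [← h6]
        exact mul_le_mul_of_nonneg_left hw hα.le
      linarith
    rcases hE with hE | ⟨hn1, hE⟩
    · exact h4 _ hE (hM n t ht).1
    · refine h4 _ hE ?_
      have := (hM (n - 1) t ht).2
      rwa [Nat.sub_add_cancel hn1] at this
  have key : ∀ (k m : ℕ) (s : ℝ), n0 < m + k → 0 ≤ s → s ≤ θ →
      ((m = 0 ∧ s = 0) ∨ (Ex α x y m s ∧ 1 ≤ m ∧ ∀ t ∈ Ico 0 s, ¬ Ex α x y m t)) →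
      (∀ t ∈ Icc 0 s, ∀ n, m < n → ¬ Ex α x y n t) → θ ≤ s + 2 * (1 / 2 : ℝ) ^ m := by
    intro k
    induction k with
    | zero =>
      intro m s hm hs0 hsθ hc _
      rcases hc with ⟨rfl, _⟩ | ⟨hE, _, _⟩
      · omega
      · exact absurd hE (hn0 m (by omega) s ⟨hs0, hsθ⟩)
    | succ k ih =>
      intro m s hm hs0 hsθ hc hno
      have hδ := δ_le h m
      have hp : (0 : ℝ) < (1 / 2) ^ m := by positivity
      -- a step
      have step : ∀ θ', s ≤ θ' → θ' ≤ θ → (∀ t ∈ Icc 0 θ', ∀ n, m < n → ¬ Ex α x y n t) →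
          θ' ≤ s + δc α m := by
        intro θ' h1 h2 h3
        refine hS α G b d h m s θ' x y f g hs0 h1 (h2.trans h60) (fun N => mono (hsol N) h2)
          hx0 hy0 (fun n hn t ht => (lt_of_not (h3 t ht)).1 n hn)
          (fun n hn t ht => (lt_of_not (h3 t ht)).2 n hn) ?_
        rcases hc with hc | ⟨hE, hm1, hc⟩
        · exact Or.inl hc
        · refine Or.inr ⟨m - 1, by omega, ?_, fun t ht => ?_⟩
          · rcases hE with hE | ⟨_, hE⟩
            · exact Or.inl hE
            · exact Or.inr hE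
          · have h4 := hc t ht
            unfold Ex at h4
            rw [not_or, not_and, not_le, not_le] at h4
            exact ⟨h4.1, h4.2 hm1⟩
      by_cases H : ∃ t ∈ Icc 0 θ, ∃ n, m < n ∧ Ex α x y n t
      · -- the first time
        have hcl : IsClosed {t | t ∈ Icc 0 θ ∧ ∃ n, m < n ∧ Ex α x y n t} := by
          have e : {t | t ∈ Icc 0 θ ∧ ∃ n, m < n ∧ Ex α x y n t} =
              ⋃ n ∈ Finset.Ioc m n0, {t | t ∈ Icc 0 θ ∧ Ex α x y n t} := by
            ext t
            simp only [mem_ofPred_eq, mem_iUnion, Finset.mem_Ioc, exists_prop]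
            constructor
            · rintro ⟨ht, n, hn, hE⟩
              refine ⟨n, ⟨hn, ?_⟩, ht, hE⟩
              by_contra hc'
              exact hn0 n (by omega) t ht hE
            · rintro ⟨n, ⟨hn, _⟩, ht, hE⟩
              exact ⟨ht, n, hn, hE⟩
          rw [e]
          refine Set.Finite.isClosed_biUnion (Finset.finite_toSet _) fun n _ => ?_
          have e2 : {t | t ∈ Icc 0 θ ∧ Ex α x y n t} =
              (Icc 0 θ ∩ (fun t => ‖x n t‖) ⁻¹' Ici (Uth α n)) ∪
                (if 1 ≤ n then Icc 0 θ ∩ (fun t => ‖y (n - 1) t‖) ⁻¹' Ici (Uth α n) else ∅) := by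
            ext t
            unfold Ex
            by_cases hn : 1 ≤ n
            · simp only [hn, mem_ofPred_eq, true_and, if_true, mem_union, mem_inter_iff,
                mem_preimage, mem_Ici, and_or_left]
            · simp only [hn, mem_ofPred_eq, false_and, or_false, if_false, mem_union,
                mem_inter_iff, mem_preimage, mem_Ici, mem_empty_iff_false]
          rw [e2]
          refine IsClosed.union ((hcx n).norm.preimage_isClosed_of_isClosed isClosed_Icc isClosed_Ici)
            ?_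
          split_ifs
          · exact (hcy (n - 1)).norm.preimage_isClosed_of_isClosed isClosed_Icc isClosed_Ici
          · exact isClosed_empty
        have hne : {t | t ∈ Icc 0 θ ∧ ∃ n, m < n ∧ Ex α x y n t}.Nonempty := by
          obtain ⟨t, ht, hE⟩ := H
          exact ⟨t, ht, hE⟩
        have hbd : BddBelow {t | t ∈ Icc 0 θ ∧ ∃ n, m < n ∧ Ex α x y n t} :=
          ⟨0, fun t ht => ht.1.1⟩
        obtain ⟨hs', hex⟩ := hcl.csInf_mem hne hbd
        have hlt : ∀ t ∈ Icc 0 θ, t < sInf {t | t ∈ Icc 0 θ ∧ ∃ n, m < n ∧ Ex α x y n t} →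
            ∀ n, m < n → ¬ Ex α x y n t := by
          intro t ht h1 n hn hE
          exact absurd (csInf_le hbd ⟨ht, n, hn, hE⟩) (not_le.2 h1)
        generalize sInf {t | t ∈ Icc 0 θ ∧ ∃ n, m < n ∧ Ex α x y n t} = s' at hs' hex hlt
        have hss' : s < s' := by
          by_contra hc'
          obtain ⟨n, hn, hE⟩ := hex
          exact hno s' ⟨hs'.1, not_lt.1 hc'⟩ n hn hE
        have h1 : s' ≤ s + δc α m := by
          by_contra hc'
          rw [not_le] at hc'
          have h2 : ∀ t ∈ Icc 0 ((max s (s + δc α m) + s') / 2), ∀ n, m < n → ¬ Ex α x y n t := by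
            intro t ht
            have h3 : max s (s + δc α m) < s' := max_lt hss' hc'
            exact hlt t ⟨ht.1, by linarith [ht.2, hs'.2]⟩ (by linarith [ht.2])
          have h3 : max s (s + δc α m) < s' := max_lt hss' hc'
          have h4 := le_max_left s (s + δc α m)
          have h5 := le_max_right s (s + δc α m)
          have := step _ (by linarith) (by linarith [hs'.2]) h2
          linarith
        -- the largest level
        classical
        obtain ⟨n, hn, hE⟩ := hex
        have hnn0 : n ≤ n0 := by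
          by_contra hc'
          exact hn0 n (by omega) s' hs' hE
        have hg := Nat.findGreatest_spec (P := fun n => Ex α x y n s') hnn0 hE
        have hle := Nat.le_findGreatest (P := fun n => Ex α x y n s') hnn0 hE
        have hgr : ∀ j, Nat.findGreatest (fun n => Ex α x y n s') n0 < j → ¬ Ex α x y j s' := by
          intro j hj hE'
          by_cases hj0 : j ≤ n0
          · exact Nat.findGreatest_is_greatest hj hj0 hE'
          · exact hn0 j (by omega) s' hs' hE'
        generalize Nat.findGreatest (fun n => Ex α x y n s') n0 = m' at hg hle hgr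
        have h2 := ih m' s' (by omega) hs'.1 hs'.2 (Or.inr ⟨hg, by omega, fun t ht =>
          hlt t ⟨ht.1, ht.2.le.trans hs'.2⟩ ht.2 m' (by omega)⟩) (fun t ht j hj => by
            rcases ht.2.eq_or_lt with h3 | h3
            · rw [h3]
              exact hgr j hj
            · exact hlt t ⟨ht.1, ht.2.trans hs'.2⟩ h3 j (by omega))
        have h3 : (1 / 2 : ℝ) ^ m' ≤ (1 / 2) ^ (m + 1) :=
          pow_le_pow_of_le_one (by norm_num) (by norm_num) (by omega)
        rw [pow_succ] at h3
        linarith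
      · have h1 := step θ hsθ le_rfl fun t ht n hn hE => H ⟨t, ht, n, hn, hE⟩
        linarith
  have h1 : ∀ t ∈ Icc (0 : ℝ) 0, ∀ n, 0 < n → ¬ Ex α x y n t := by
    intro t ht n hn hE
    have ht0 : t = 0 := le_antisymm ht.2 ht.1
    rw [ht0] at hE
    have hα1 : 1 ≤ α n := by
      have := (a_lo h n).1
      linarith
    have hU : 0 < Uth α n := by
      unfold Uth
      positivity
    rcases hE with hE | ⟨_, hE⟩
    · obtain ⟨k, rfl⟩ : ∃ k, n = k + 1 := ⟨n - 1, by omega⟩
      rw [hx0] at hE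
      have e1 : x0 α (k + 1) = (α (k + 1) ^ (k + 1 + 1))⁻¹ := rfl
      rw [e1, Complex.norm_real, Real.norm_of_nonneg (by positivity)] at hE
      unfold Uth at hE
      have h2 : √(α (k + 1)) < α (k + 1) ^ (k + 1 + 1) := by
        have h3 : 1 < α (k + 1) := by
          have := (a_lo h (k + 1)).1
          linarith
        have h4 : √(α (k + 1)) < α (k + 1) := by
          rw [Real.sqrt_lt' (by linarith)]
          nlinarith
        refine h4.trans_le ?_
        calc α (k + 1) = α (k + 1) ^ 1 := (pow_one _).symm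
          _ ≤ α (k + 1) ^ (k + 1 + 1) := pow_le_pow_right₀ h3.le (by omega)
      have h5 : (α (k + 1) ^ (k + 1 + 1))⁻¹ < (√(α (k + 1)))⁻¹ :=
        inv_strictAnti₀ (by positivity) h2
      linarith
    · rw [hy0, norm_zero] at hE
      linarith
  have := key (n0 + 1) 0 0 (by omega) le_rfl h0 (Or.inl ⟨rfl, rfl⟩) h1
  rw [pow_zero] at this
  linarith

end Pool.Agent.Y737.EM.Ric
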